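import Pool.Agent.Run7.h215.Main
import Pool.Agent.Run7.h215.T8

/-!
# The grid size for strictly convex drawings of 3-connected planar graphs is of order `n ^ (3/2)`

For every `n ≥ 4` the least `L` such that every 3-connected planar graph on `n` vertices has a
strictly convex plane straight-line drawing on the `L × L` grid exists and lies between
`c n ^ (3/2)` and `C n ^ (3/2)`.

Outline of the proof of the upper bound (files `Pool/Agent/Run7/h215/T*.lean`; the definitions are
in `Defs.lean`, the interfaces of the pieces in `CB.lean` and `Iface.lean`).

1. (T3, T4, T5) A canonical ordering: the graph is built from a base edge by repeatedly adding, on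
   the upper contour, a path (one new face) or a vertex (a fan of new faces), starting from a face
   of length at most five, which is the outer face at the end.
2. (T6) Base coordinates: integers `x v 0 + x v 1 + x v 2 = N`, `N = R ^ 2 = O(n)`, such that at
   every inner face the boundary splits into three parts, on each of which one of the three
   coordinates is constant and larger than on the rest of the boundary (a convex drawing on a grid
   of linear size in the spirit of Schnyder, Felsner and Bárány and Rote).
3. (T7) Final coordinates.  Scale by `S = C R`, and bend every line `x · m = h` to a parabola-like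
   arc.  Corners which are nearly straight in the direction of a line `x · m = h` occur, at a given
   vertex, for at most one `m` (T7a).  The vertices of type `m` on the line `x · m = h` are placed
   at the points of a strictly convex lattice chain (T1): a chain of `2 N + 1` lattice points with
   increasing abscissas, close to `2 Sh u`, whose slopes are strictly decreasing and follow a
   parabola; there is room for it as the steps have length about `S ≥ C R`, where there are about
   `N = R ^ 2` available slopes.  All vertices of type `m` are moreover raised by a fixed fraction of
   `S`, so that corners between different lines stay strictly convex.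
4. (T2, T9) The resulting positions give a strictly convex plane drawing, on a grid of side
   `O(S N) = O(R ^ 3) = O(n ^ (3/2))`.

The lower bound (T8) comes from the wheel.
-/

set_option autoImplicit false

namespace Pool.Agent.Results.MP_8ffccf_co.StrictConvexGridOrder

open Pool.Agent.Run7.h215

/-- `L(n) = Θ(n ^ (3/2))`, with explicit existence of the least `L`. -/
theorem result : ∃ c C : ℝ, 0 < c ∧ 0 < C ∧ ∀ n : ℕ, 4 ≤ n →
    ∃ L : ℕ, IsLeast {l : ℕ | Universal n l} L ∧
      c * (n : ℝ) ^ (3 / 2 : ℝ) ≤ (L : ℝ) ∧ (L : ℝ) ≤ C * (n : ℝ) ^ (3 / 2 : ℝ) := by
  obtain ⟨C, hC, hU⟩ := upper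
  obtain ⟨c, hc, h8⟩ := t8
  refine ⟨c, C, hc, hC, fun n hn => ?_⟩
  obtain ⟨L, hL, hLC⟩ := hU n hn
  have hne : {l : ℕ | Universal n l}.Nonempty := ⟨L, hL⟩
  refine ⟨sInf {l : ℕ | Universal n l}, ⟨Nat.sInf_mem hne, fun l hl => Nat.sInf_le hl⟩,
    h8 n hn _ (Nat.sInf_mem hne), ?_⟩
  have h1 : sInf {l : ℕ | Universal n l} ≤ L := Nat.sInf_le hL
  exact (Nat.cast_le.2 h1).trans hLC

end Pool.Agent.Results.MP_8ffccf_co.StrictConvexGridOrder
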